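import Pool.Agent.Lib.MP_5b4ede_co.Words

set_option autoImplicit false

namespace Pool.Agent.Lib.MP_5b4ede_co

open Finset

/-- Catalan words on `Fin n` with `s` ones, in the form used by the recursion. -/
def Cat {n : ℕ} (s : ℕ) (w : Fin n → Fin 2) : Prop := Ballot w ∧ cnt w 1 n = s

theorem isCatalan_iff (s : ℕ) (w : Fin (2 * s) → Fin 2) : IsCatalan s w ↔ Cat s w := by
  unfold IsCatalan Cat Ballot
  simp only [cnt_eq_card, cnt_total]
  have := cnt_add w
  constructor
  · rintro ⟨_, h2, h3⟩; exact ⟨h3, h2⟩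
  · rintro ⟨h1, h2⟩; exact ⟨by omega, h2, h1⟩

variable {n s : ℕ}

theorem cnt_lt {w : Fin n → Fin 2} (hn : n = s * 2) (hw : Cat s w) (i : Fin n) :
    cnt w (w i) i.val < s := by
  have h1 := cnt_succ w (w i) i
  have h2 := cnt_mono w (w i) (show i.val + 1 ≤ n from i.2)
  have h3 := cnt_add w
  have h4 := hw.2
  have : w i = 0 ∨ w i = 1 := by omega
  rcases this with h | h <;> rw [h] at h1 h2 ⊢ <;> simp at h1 <;> omega

theorem cnt_strict {w : Fin n → Fin 2} {a b : Fin n} (hab : a < b) :
    cnt w (w a) a.val < cnt w (w a) b.val := by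
  have h1 := cnt_succ w (w a) a
  have h2 := cnt_mono w (w a) (show a.val + 1 ≤ b.val from hab)
  simp at h1
  omega

/-- The labelling attached to a word. -/
def lab (s : ℕ) (w : Fin n → Fin 2) (i : Fin n) : ℕ :=
  2 * (s - 1 - cnt w (w i) i.val) + (w i).val

theorem lab_lt {w : Fin n → Fin 2} (hn : n = s * 2) (hw : Cat s w) (i : Fin n) :
    lab s w i < n := by
  have := cnt_lt hn hw i
  have := (w i).2
  unfold lab
  omega

theorem lab_mod (w : Fin n → Fin 2) (i : Fin n) : lab s w i % 2 = (w i).val := by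
  have := (w i).2
  unfold lab
  omega

theorem lab_div (w : Fin n → Fin 2) (i : Fin n) :
    lab s w i / 2 = s - 1 - cnt w (w i) i.val := by
  have := (w i).2
  unfold lab
  omega

theorem lab_anti {w : Fin n → Fin 2} (hn : n = s * 2) (hw : Cat s w) {a b : Fin n} (hab : a < b)
    (h : w a = w b) : lab s w b < lab s w a := by
  have h1 := cnt_strict (w := w) hab
  have h2 := cnt_lt hn hw b
  unfold lab
  rw [← h] at h2 ⊢
  omega

theorem lab_inj {w : Fin n → Fin 2} (hn : n = s * 2) (hw : Cat s w) :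
    Function.Injective (lab s w) := by
  intro a b h
  have h1 : w a = w b := by
    apply Fin.ext
    rw [← lab_mod (s := s), ← lab_mod (s := s), h]
  rcases lt_trichotomy a b with hab | hab | hab
  · have := lab_anti hn hw hab h1; omega
  · exact hab
  · have := lab_anti hn hw hab h1.symm; omega

/-- The permutation attached to a Catalan word. -/
noncomputable def toPerm (hn : n = s * 2) (w : Fin n → Fin 2) (hw : Cat s w) :
    Equiv.Perm (Fin n) :=
  Equiv.ofBijective (fun i => ⟨lab s w i, lab_lt hn hw i⟩)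
    (Finite.injective_iff_bijective.1 fun _ _ h => lab_inj hn hw (congrArg Fin.val h))

theorem toPerm_val (hn : n = s * 2) (w : Fin n → Fin 2) (hw : Cat s w) (i : Fin n) :
    (toPerm hn w hw i).val = lab s w i := rfl

/-- Linear extension condition on `Fin n`. -/
def LE2 (π : Equiv.Perm (Fin n)) : Prop :=
  ∀ x y : Fin n, x ≠ y → ENle 2 x.val y.val → π.symm x < π.symm y

theorem LE2.lt {π : Equiv.Perm (Fin n)} (h : LE2 π) {a b : Fin n} (hab : a ≠ b)
    (h1 : (π b).val / 2 ≤ (π a).val / 2) (h2 : (π a).val % 2 ≤ (π b).val % 2) : a < b := by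
  have := h (π a) (π b) (fun e => hab (π.injective e)) ⟨h1, h2⟩
  simpa using this

theorem toPerm_le2 (hn : n = s * 2) (w : Fin n → Fin 2) (hw : Cat s w) :
    LE2 (toPerm hn w hw) := by
  intro x y hxy hle
  obtain ⟨a, rfl⟩ := (toPerm hn w hw).surjective x
  obtain ⟨b, rfl⟩ := (toPerm hn w hw).surjective y
  simp only [Equiv.symm_apply_apply]
  obtain ⟨h1, h2⟩ := hle
  rw [toPerm_val, toPerm_val, lab_div, lab_div] at h1
  rw [toPerm_val, toPerm_val, lab_mod, lab_mod] at h2
  have ha := cnt_lt hn hw a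
  have hb := cnt_lt hn hw b
  by_contra hlt
  have hne : a ≠ b := fun e => hxy (by rw [e])
  have hba : b < a := lt_of_le_of_ne (not_lt.1 hlt) hne.symm
  by_cases hw' : w a = w b
  · have := cnt_strict (w := w) hba
    rw [hw'] at h1 ha
    omega
  · have ha0 : w a = 0 := by omega
    have hb1 : w b = 1 := by omega
    have e1 := cnt_succ w 1 b
    have e2 := hw.1 (b.val + 1)
    have e3 := cnt_mono w 0 (show b.val + 1 ≤ a.val from hba)
    rw [ha0] at h1 ha
    rw [hb1] at h1 hb
    simp [hb1] at e1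
    omega

theorem toPerm_avoids (hn : n = s * 2) (w : Fin n → Fin 2) (hw : Cat s w) :
    Avoids123 (toPerm hn w hw) := by
  rintro ⟨a, b, c, hab, hbc, h1, h2⟩
  rw [Fin.lt_def, toPerm_val, toPerm_val] at h1 h2
  have : w a = w b ∨ w b = w c ∨ w a = w c := by omega
  rcases this with h | h | h
  · have := lab_anti hn hw hab h; omega
  · have := lab_anti hn hw hbc h; omega
  · have := lab_anti hn hw (hab.trans hbc) h; omega

theorem toPerm_desc (hn : n = s * 2) (w : Fin n → Fin 2) (hw : Cat s w) (i : Fin n)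
    (h : i.val + 1 < n) :
    toPerm hn w hw ⟨i.val + 1, h⟩ < toPerm hn w hw i ↔ ¬ w i < w ⟨i.val + 1, h⟩ := by
  rw [Fin.lt_def, toPerm_val, toPerm_val]
  have ha := cnt_lt hn hw i
  have hb := cnt_lt hn hw ⟨i.val + 1, h⟩
  have e0 := cnt_succ w 0 i
  have e1 := cnt_succ w 1 i
  have e2 := hw.1 (i.val + 1)
  have e3 := hw.1 i.val
  unfold lab
  have h1 : w i = 0 ∨ w i = 1 := by omega
  have h2 : w ⟨i.val + 1, h⟩ = 0 ∨ w ⟨i.val + 1, h⟩ = 1 := by omega
  rcases h1 with h1 | h1 <;> rcases h2 with h2 | h2 <;> rw [h1] at ha <;> rw [h2] at hb <;>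
    simp [h1, h2] at e0 e1 hb ⊢ <;> omega

theorem sum_pos (n : ℕ) :
    2 * (∑ i : Fin n, if i.val + 1 < n then i.val + 1 else 0) + n = n * n := by
  cases n with
  | zero => simp
  | succ n =>
    rw [Fin.sum_univ_castSucc]
    simp only [Fin.val_castSucc, Fin.val_last, lt_irrefl, if_false, add_zero]
    have : ∀ i : Fin n, (if i.val + 1 < n + 1 then i.val + 1 else 0) = i.val + 1 := by
      intro i; rw [if_pos (by omega)]
    simp only [this]
    rw [Fin.sum_univ_eq_sum_range (fun i => i + 1) n]
    have := Finset.sum_range_id_mul_two (n + 1)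
    rw [Finset.sum_range_succ'] at this
    simp only [add_zero, Nat.add_sub_cancel] at this
    nlinarith

theorem maj_toPerm (hn : n = s * 2) (w : Fin n → Fin 2) (hw : Cat s w) :
    2 * (maj (toPerm hn w hw) + peak w) + n = n * n := by
  rw [← sum_pos n]
  unfold maj peak
  rw [← sum_add_distrib]
  congr 2
  refine sum_congr rfl fun i _ => ?_
  by_cases h : i.val + 1 < n
  · rw [dif_pos h, dif_pos h, if_pos h]
    simp only [toPerm_desc hn w hw i h]
    split_ifs <;> simp
  · rw [dif_neg h, dif_neg h, if_neg h]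

/-- The word attached to a permutation. -/
def toWord (π : Equiv.Perm (Fin n)) (i : Fin n) : Fin 2 := ⟨(π i).val % 2, Nat.mod_lt _ (by norm_num)⟩

theorem card_vals (hn : n = s * 2) (c m : ℕ) (hc : c < 2) :
    (univ.filter fun v : Fin n => v.val % 2 = c ∧ m ≤ v.val / 2).card = s - m := by
  rw [← Nat.card_Ico m s]
  refine card_bij (fun v _ => v.val / 2) ?_ ?_ ?_
  · intro v hv
    have := v.2
    simp only [mem_filter, mem_univ, true_and] at hv
    simp only [mem_Ico]
    omega
  · intro v hv v' hv' h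
    simp only [mem_filter, mem_univ, true_and] at hv hv'
    apply Fin.ext
    omega
  · intro j hj
    simp only [mem_Ico] at hj
    refine ⟨⟨2 * j + c, by omega⟩, ?_, ?_⟩
    · simp only [mem_filter, mem_univ, true_and]; omega
    · simp only; omega

theorem card_perm (π : Equiv.Perm (Fin n)) (p : Fin n → Prop) [DecidablePred p] :
    (univ.filter fun i => p (π i)).card = (univ.filter p).card := by
  refine card_bij (fun i _ => π i) ?_ ?_ ?_
  · intro i hi; simpa using hi
  · intro i _ j _ h; exact π.injective h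
  · intro v hv; exact ⟨π.symm v, by simpa using hv, by simp⟩

theorem cnt_toWord (hn : n = s * 2) {π : Equiv.Perm (Fin n)} (h : LE2 π) (i : Fin n) :
    cnt (toWord π) (toWord π i) i.val = s - ((π i).val / 2 + 1) := by
  have hi := (π i).2
  rw [← card_vals hn ((π i).val % 2) _ (Nat.mod_lt _ (by norm_num)),
    ← card_perm π, ← cnt_eq_card]
  congr 1
  ext a
  simp only [mem_filter, mem_univ, true_and, toWord, Fin.mk.injEq]
  constructor
  · rintro ⟨h1, h2⟩
    refine ⟨h2, ?_⟩
    by_contra hcon
    have hne : i ≠ a := by rintro rfl; omega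
    have := h.lt hne (by omega) (by omega)
    have : i.val < a.val := this
    omega
  · rintro ⟨h1, h2⟩
    have hne : a ≠ i := by rintro rfl; omega
    exact ⟨h.lt hne (by omega) (by omega), h1⟩

theorem cat_toWord (hn : n = s * 2) {π : Equiv.Perm (Fin n)} (h : LE2 π) : Cat s (toWord π) := by
  constructor
  · intro k
    rw [← cnt_eq_card, ← cnt_eq_card]
    refine card_le_card_of_injOn
      (fun a => π.symm ⟨(π a).val - 1, lt_of_le_of_lt (Nat.sub_le _ _) (π a).2⟩) ?_ ?_
    · intro a ha
      simp only [coe_filter, mem_univ, true_and, Set.mem_ofPred_eq, toWord, Fin.ext_iff,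
        Fin.val_one, Fin.val_zero, Equiv.apply_symm_apply] at ha ⊢
      refine ⟨?_, by omega⟩
      have := h ⟨(π a).val - 1, lt_of_le_of_lt (Nat.sub_le _ _) (π a).2⟩ (π a)
        (by intro e; have := congrArg Fin.val e; simp only at this; omega)
        ⟨by simp only; omega, by simp only; omega⟩
      rw [Equiv.symm_apply_apply, Fin.lt_def] at this
      omega
    · intro a ha b hb hab
      simp only [coe_filter, mem_univ, true_and, Set.mem_ofPred_eq, toWord, Fin.ext_iff,
        Fin.val_one] at ha hb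
      have := congrArg Fin.val (π.symm.injective hab)
      simp only at this
      apply π.injective
      apply Fin.ext
      omega
  · rw [← cnt_total]
    have := card_vals hn 1 0 (by norm_num)
    rw [← card_perm π] at this
    simpa [toWord, Fin.ext_iff] using this

theorem toPerm_toWord (hn : n = s * 2) {π : Equiv.Perm (Fin n)} (h : LE2 π) :
    toPerm hn (toWord π) (cat_toWord hn h) = π := by
  ext i
  rw [toPerm_val, lab, cnt_toWord hn h]
  have hi := (π i).2
  simp only [toWord]
  omega

open Classical in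
theorem sum_linext {M : Type} [AddCommMonoid M] (hn : n = s * 2) (F : ℕ → M) :
    ∑ π ∈ univ.filter (fun π : Equiv.Perm (Fin n) => LE2 π ∧ Avoids123 π), F (maj π)
      = ∑ w ∈ univ.filter (fun w : Fin n → Fin 2 => Cat s w), F ((n * n - n) / 2 - peak w) := by
  symm
  refine sum_bij (fun w hw => toPerm hn w (mem_filter.1 hw).2) ?_ ?_ ?_ ?_
  · intro w hw
    exact mem_filter.2 ⟨mem_univ _, toPerm_le2 _ _ _, toPerm_avoids _ _ _⟩
  · intro w hw w' hw' e
    funext i
    apply Fin.ext
    have := congrArg (fun π : Equiv.Perm (Fin n) => (π i).val) e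
    simp only [toPerm_val] at this
    rw [← lab_mod (s := s), ← lab_mod (s := s), this]
  · intro π hπ
    have h := (mem_filter.1 hπ).2.1
    exact ⟨toWord π, mem_filter.2 ⟨mem_univ _, cat_toWord hn h⟩, toPerm_toWord hn h⟩
  · intro w hw
    have := maj_toPerm hn w (mem_filter.1 hw).2
    congr 1
    omega

theorem peak_cat {m : ℕ} {w : Fin (m + 1) → Fin 2} (hn : m + 1 = 2 * s) (hw : Cat s w) :
    peak w = maj w + s := by
  have h1 := peak_add m w
  have h2 := hw.2
  have h3 := hw.1 m
  have h4 := cnt_add w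
  have h5 := cnt_succ w 0 (Fin.last m)
  have h6 := cnt_succ w 1 (Fin.last m)
  have : w (Fin.last m) = 0 ∨ w (Fin.last m) = 1 := by omega
  rcases this with h | h <;> simp [h] at h1 h5 h6 <;> omega

theorem peak_cat' {w : Fin n → Fin 2} (hs : 1 ≤ s) (hn : n = 2 * s) (hw : Cat s w) :
    peak w = maj w + s := by
  obtain ⟨m, rfl⟩ : ∃ m, n = m + 1 := ⟨n - 1, by omega⟩
  exact peak_cat hn hw

theorem main {K : Type} [Field K] {q : K} (hq : q ≠ 0) (φ : Polynomial ℤ →+* K)
    (hφ : φ Polynomial.X = q) (s : ℕ) (hs : 1 ≤ s) :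
    φ (ENmaj s 2) = φ (Polynomial.X ^ (2 * s.choose 2) * cat s) := by
  classical
  obtain ⟨r, rfl⟩ : ∃ r, s = r + 1 := ⟨s - 1, by omega⟩
  have hL : φ (ENmaj (r + 1) 2) = q ^ ((r + 1) * (2 * r + 1)) * T q⁻¹ ((r + 1) * 2) (r + 1) := by
    unfold ENmaj T
    rw [map_sum]
    simp only [map_pow, hφ]
    have := sum_linext (n := (r + 1) * 2) (s := r + 1) rfl (fun k => q ^ k)
    rw [← sum_filter, mul_sum]
    refine Eq.trans (Eq.trans ?_ this) ?_
    · refine sum_congr ?_ fun _ _ => rfl
      ext π
      simp only [mem_filter]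
      rfl
    · refine sum_congr ?_ fun w hw => ?_
      · ext w
        simp only [mem_filter]
        rfl
      · have h1 := maj_toPerm (s := r + 1) rfl w (mem_filter.1 hw).2
        have h2 : (r + 1) * (2 * r + 1) = maj (toPerm (s := r + 1) rfl w (mem_filter.1 hw).2)
            + peak w := by nlinarith
        have h3 : ((r + 1) * 2 * ((r + 1) * 2) - (r + 1) * 2) / 2 - peak w
            = maj (toPerm (s := r + 1) rfl w (mem_filter.1 hw).2) := by omega
        rw [h3, h2, pow_add, mul_assoc, ← mul_pow, mul_inv_cancel₀ hq, one_pow, mul_one]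
  have hR : q ^ (r + 1) * φ (cat (r + 1)) = T q (2 * (r + 1)) (r + 1) := by
    unfold cat T
    rw [map_sum, ← sum_filter, mul_sum]
    simp only [map_pow, hφ]
    refine sum_congr ?_ fun w hw => ?_
    · ext w
      simp only [mem_filter, isCatalan_iff]
      rfl
    · rw [peak_cat' hs rfl (mem_filter.1 hw).2, pow_add q (maj w), mul_comm]
  rw [T_eq q _ (r + 1) (r + 1) (by ring) (by omega)] at hR
  rw [T_eq q⁻¹ _ (r + 1) (r + 1) (by ring) (by omega)] at hL
  have hc : 2 * (r + 1).choose 2 = (r + 1) * r := by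
    rw [Nat.choose_two_right, Nat.add_sub_cancel, Nat.mul_div_cancel']
    rw [mul_comm]
    exact (Nat.even_mul_succ_self r).two_dvd
  rw [map_mul, map_pow, hφ, hc, hL]
  have hf := P_final hq r
  apply mul_left_cancel₀ (pow_ne_zero (r + 1) hq)
  linear_combination q ^ ((r + 1) * r) * hf - q ^ ((r + 1) * r) * hR

end Pool.Agent.Lib.MP_5b4ede_co
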