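import Mathlib

set_option autoImplicit false

namespace Pool.Agent.Lib.MP_5b4ede_co

/-- Major index of a sequence `f 0, ..., f (n-1)`: the sum of the (1-based) positions `i + 1`
with `f i > f (i + 1)`. -/
def maj {n : ℕ} {α : Type} [LinearOrder α] (f : Fin n → α) : ℕ :=
  ∑ i : Fin n, if h : i.val + 1 < n then (if f ⟨i.val + 1, h⟩ < f i then i.val + 1 else 0) else 0

/-- The order of `EN_{s,t}` on labels shifted down by one: the tooth of `x` is `x / t` and its
position in the tooth is `x % t`. -/
def ENle (t x y : ℕ) : Prop := y / t ≤ x / t ∧ x % t ≤ y % t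

/-- `π`, read as the word `π 0, π 1, ...`, is a linear extension of `EN_{s,t}`. -/
def IsLinExt (s t : ℕ) (π : Equiv.Perm (Fin (s * t))) : Prop :=
  ∀ x y : Fin (s * t), x ≠ y → ENle t x.val y.val → π.symm x < π.symm y

/-- `π` avoids the pattern 123. -/
def Avoids123 {n : ℕ} (π : Equiv.Perm (Fin n)) : Prop :=
  ¬ ∃ a b c : Fin n, a < b ∧ b < c ∧ π a < π b ∧ π b < π c

/-- Catalan words of length `2 n` in the letters `0 < 1`. -/
def IsCatalan (n : ℕ) (w : Fin (2 * n) → Fin 2) : Prop :=
  (Finset.univ.filter fun i => w i = 0).card = n ∧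
  (Finset.univ.filter fun i => w i = 1).card = n ∧
  ∀ k : ℕ, (Finset.univ.filter fun i : Fin (2 * n) => i.val < k ∧ w i = 1).card ≤
    (Finset.univ.filter fun i : Fin (2 * n) => i.val < k ∧ w i = 0).card

open Classical in
/-- The major index generating function of the 123-avoiding linear extensions of `EN_{s,t}`. -/
noncomputable def ENmaj (s t : ℕ) : Polynomial ℤ :=
  ∑ π ∈ Finset.univ.filter (fun π : Equiv.Perm (Fin (s * t)) => IsLinExt s t π ∧ Avoids123 π),
    Polynomial.X ^ maj π

open Classical in
/-- The major index generating function of the Catalan words of length `2 n`. -/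
noncomputable def cat (n : ℕ) : Polynomial ℤ :=
  ∑ w ∈ Finset.univ.filter (fun w : Fin (2 * n) → Fin 2 => IsCatalan n w), Polynomial.X ^ maj w

end Pool.Agent.Lib.MP_5b4ede_co
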