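import Pool.Agent.Lib.MP_5b4ede_co.Defs

/-! The further definitions used in the statement about the patterns `pat a b`. -/

namespace Pool.Agent.Lib.MP_5b4ede_co

/-- Number of descents of a sequence `f 0, ..., f (n-1)`. -/
def des {n : ℕ} {α : Type} [LinearOrder α] (f : Fin n → α) : ℕ :=
  ∑ i : Fin n, if h : i.val + 1 < n then (if f ⟨i.val + 1, h⟩ < f i then 1 else 0) else 0

/-- The pattern `0, 1, ..., a, a + 2, ..., a + b + 2, a + 1`. -/
def pat (a b : ℕ) (i : Fin (a + b + 3)) : ℕ :=
  if i.val ≤ a then i.val else if i.val = a + b + 2 then a + 1 else i.val + 1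

/-- `π` has no subsequence in the same relative order as `σ`. -/
def Avoids {n m : ℕ} (π : Equiv.Perm (Fin n)) (σ : Fin m → ℕ) : Prop :=
  ¬ ∃ u : Fin m → Fin n, StrictMono u ∧ ∀ i j, π (u i) < π (u j) ↔ σ i < σ j

/-- The weight of the letter `c`: it is `r` for `c = a` and `1` for the other letters. -/
def wt (a r c : ℕ) : ℕ := if c = a then r else 1

/-- Words in the letters `0, ..., a + b` in which the letter `c` occurs `s * wt c` times and,
in every prefix, the number of occurrences of `c` divided by `wt c` is weakly decreasing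
in `c`. -/
def IsWord (s a r b : ℕ) (w : Fin (s * (a + r + b)) → Fin (a + b + 1)) : Prop :=
  (∀ c, (Finset.univ.filter fun i => w i = c).card = s * wt a r c.val) ∧
  ∀ (c d : Fin (a + b + 1)) (k : ℕ), c < d →
    wt a r c.val * (Finset.univ.filter fun i => i.val < k ∧ w i = d).card ≤
      wt a r d.val * (Finset.univ.filter fun i => i.val < k ∧ w i = c).card

end Pool.Agent.Lib.MP_5b4ede_co
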