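import Mathlib

set_option autoImplicit false

namespace Pool.Agent.Lib.MP_5b4ede_co

variable {K : Type} [Field K]

/-- Gaussian binomial coefficient `[a + b choose b]`. -/
def B (q : K) : ℕ → ℕ → K
  | 0, _ => 1
  | _ + 1, 0 => 1
  | a + 1, b + 1 => B q (a + 1) b + q ^ (b + 1) * B q a (b + 1)

theorem B_zero_left (q : K) (b : ℕ) : B q 0 b = 1 := by simp [B]

theorem B_zero_right (q : K) (a : ℕ) : B q a 0 = 1 := by cases a <;> simp [B]

theorem B_succ (q : K) (a b : ℕ) :
    B q (a + 1) (b + 1) = B q (a + 1) b + q ^ (b + 1) * B q a (b + 1) := by simp [B]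

theorem B_ratio (q : K) : ∀ a b : ℕ,
    (1 - q ^ (a + 1)) * B q (a + 1) b = (1 - q ^ (b + 1)) * B q a (b + 1) := by
  intro a
  induction a with
  | zero =>
    intro b
    induction b with
    | zero => simp [B_zero_left, B_zero_right]
    | succ b ih =>
      rw [B_succ]
      simp only [B_zero_left] at *
      linear_combination ih
  | succ a iha =>
    intro b
    induction b with
    | zero =>
      have := iha 0
      rw [B_succ q a 0, B_zero_right, B_zero_right] at *
      linear_combination q * this
    | succ b ihb =>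
      have h1 := iha (b + 1)
      rw [B_succ q (a + 1) b, B_succ q a (b + 1)]
      linear_combination ihb + q ^ (b + 2) * h1

theorem B_succ' (q : K) (a b : ℕ) :
    B q (a + 1) (b + 1) = q ^ (a + 1) * B q (a + 1) b + B q a (b + 1) := by
  rw [B_succ]
  linear_combination B_ratio q a b

theorem B_symm (q : K) : ∀ a b : ℕ, B q a b = B q b a := by
  intro a
  induction a with
  | zero => intro b; rw [B_zero_left, B_zero_right]
  | succ a iha =>
    intro b
    induction b with
    | zero => rw [B_zero_left, B_zero_right]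
    | succ b ihb => rw [B_succ q a b, B_succ' q b a, ihb, iha (b + 1)]; ring

theorem B_inv {q : K} (hq : q ≠ 0) : ∀ a b : ℕ, B q⁻¹ a b * q ^ (a * b) = B q a b := by
  intro a
  induction a with
  | zero => intro b; simp [B_zero_left]
  | succ a iha =>
    intro b
    induction b with
    | zero => simp [B_zero_right]
    | succ b ihb =>
      rw [B_succ q⁻¹ a b, B_succ' q a b, ← ihb, ← iha (b + 1)]
      have h : q⁻¹ ^ (b + 1) * q ^ (b + 1) = 1 := by
        rw [← mul_pow, inv_mul_cancel₀ hq, one_pow]
      linear_combination (B q⁻¹ a (b + 1) * q ^ (a * (b + 1))) * h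

theorem B_three (q : K) (a b : ℕ) :
    B q (a + 1) (b + 1) = B q a (b + 1) + B q (a + 1) b + (q ^ (a + b + 1) - 1) * B q a b := by
  have key : (1 - q ^ (b + 1)) * B q a (b + 1) = (1 - q ^ (a + b + 1)) * B q a b := by
    cases a with
    | zero => simp [B_zero_left]
    | succ a =>
      rw [B_succ]
      linear_combination (- q ^ (b + 1)) * B_ratio q a b
  rw [B_succ]
  linear_combination -key

/-- Closed form for the peak generating function of ballot words. -/
def P (q : K) (a : ℕ) : ℕ → K
  | 0 => 1
  | b + 1 => B q a (b + 1) - B q (a + 1) b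

theorem P_three (q : K) (a b : ℕ) :
    P q (a + 1) (b + 1) = P q a (b + 1) + P q (a + 1) b + (q ^ (a + b + 1) - 1) * P q a b := by
  cases b with
  | zero =>
    simp only [P]
    rw [B_three]
    simp only [B_zero_right]
    ring
  | succ b =>
    simp only [P]
    rw [B_three q a (b + 1), B_three q (a + 1) b]
    ring

theorem P_zero (q : K) (b : ℕ) : P q b (b + 1) = 0 := by
  simp only [P]
  rw [B_symm, sub_self]

theorem P_final {q : K} (hq : q ≠ 0) (s : ℕ) :
    q ^ ((s + 1) * (s + 1) + (s + 1)) * P q⁻¹ (s + 1) (s + 1) = P q (s + 1) (s + 1) := by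
  simp only [P]
  have h1 := B_inv hq (s + 1) (s + 1)
  have h2 := B_inv hq (s + 1 + 1) s
  have h3 := B_ratio q (s + 1) s
  linear_combination q ^ (s + 1) * h1 - q ^ (s + 2) * h2 + h3

end Pool.Agent.Lib.MP_5b4ede_co
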