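import Pool.Agent.Lib.MP_5b4ede_co.Defs2

/-! Partitions on a labelled poset and the shift by a rank function. -/

namespace Pool.Agent.Lib.MP_5b4ede_co
open Finset

variable {n : ℕ} {γ γ' : Type} [LinearOrder γ] [LinearOrder γ']

/-- Indicator of the descents. -/
def dd (f : Fin n → γ) (i : Fin n) : ℕ :=
  if h : i.val + 1 < n then (if f ⟨i.val + 1, h⟩ < f i then 1 else 0) else 0

theorem des_eq (f : Fin n → γ) : des f = ∑ i, dd f i := rfl

theorem maj_eq (f : Fin n → γ) : maj f = ∑ i : Fin n, (i.val + 1) * dd f i := by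
  refine sum_congr rfl fun i _ => ?_
  unfold dd
  split_ifs <;> simp

theorem dd_congr {f : Fin n → γ} {g : Fin n → γ'}
    (h : ∀ (i : Fin n) (hi : i.val + 1 < n), f ⟨i.val + 1, hi⟩ < f i ↔ g ⟨i.val + 1, hi⟩ < g i) :
    des f = des g ∧ maj f = maj g := by
  have : dd f = dd g := funext fun i => by
    unfold dd
    by_cases hi : i.val + 1 < n
    · simp only [hi, dif_pos, h i hi]
    · simp [hi]
  simp only [des_eq, maj_eq, this, and_self]

/-- The next value. -/
def nx (h : Fin n → ℕ) (i : Fin n) : ℕ := if hi : i.val + 1 < n then h ⟨i.val + 1, hi⟩ else 0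

/-- Tail sums. -/
def tl (d : Fin n → ℕ) (i : Fin n) : ℕ := ∑ j, if i ≤ j then d j else 0

theorem tl_eq (d : Fin n → ℕ) (i : Fin n) : tl d i = d i + nx (tl d) i := by
  have e : d i = ∑ j, if j = i then d j else 0 := by simp
  unfold nx
  split_ifs with hi
  · rw [e, tl, tl, ← sum_add_distrib]
    refine sum_congr rfl fun j _ => ?_
    simp only [Fin.le_def, Fin.ext_iff]
    split_ifs <;> omega
  · rw [e, tl, add_zero]
    refine sum_congr rfl fun j _ => ?_
    have := j.2
    simp only [Fin.le_def, Fin.ext_iff]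
    split_ifs <;> omega

theorem eq_tl {h d : Fin n → ℕ} (H : ∀ i, h i = d i + nx h i) : h = tl d := by
  have key : ∀ (k : ℕ) (i : Fin n), n = i.val + 1 + k → h i = tl d i := by
    intro k
    induction k with
    | zero =>
      intro i hi
      rw [H i, tl_eq, nx, nx, dif_neg (by omega), dif_neg (by omega)]
    | succ k ih =>
      intro i hi
      rw [H i, tl_eq, nx, nx, dif_pos (by omega), dif_pos (by omega), ih _ (by simp; omega)]
  exact funext fun i => key (n - i.val - 1) i (by have := i.2; omega)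

theorem sum_tl (d : Fin n → ℕ) : ∑ i, tl d i = ∑ j : Fin n, (j.val + 1) * d j := by
  unfold tl
  rw [sum_comm]
  refine sum_congr rfl fun j _ => ?_
  rw [← sum_filter, sum_const, smul_eq_mul, filter_ge_eq_Iic, Fin.card_Iic]

theorem strictMono_adj (g : Fin n → γ) :
    StrictMono g ↔ ∀ (i : Fin n) (hi : i.val + 1 < n), g i < g ⟨i.val + 1, hi⟩ := by
  refine ⟨fun h i hi => h (by simp [Fin.lt_def]), fun h => ?_⟩
  cases n with
  | zero => exact fun i => i.elim0
  | succ n => exact Fin.strictMono_iff_lt_succ.2 fun i => h i.castSucc (by simp)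

/-- The order in which the elements are sorted. -/
def key (ω : Fin n → γ) (f : Fin n → ℕ) (x : Fin n) : ℕᵒᵈ ×ₗ γ :=
  toLex (OrderDual.toDual (f x), ω x)

theorem key_lt {ω : Fin n → γ} {f : Fin n → ℕ} {x y : Fin n} :
    key ω f x < key ω f y ↔ f y < f x ∨ f x = f y ∧ ω x < ω y := by
  simp [key, Prod.Lex.toLex_lt_toLex]

omit [LinearOrder γ] in
theorem key_inj {ω : Fin n → γ} (hω : Function.Injective ω) (f : Fin n → ℕ) :
    Function.Injective (key ω f) := fun _ _ h => hω (congrArg (fun z => (ofLex z).2) h)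

theorem sorted_iff {ω : Fin n → γ} (hω : Function.Injective ω) (f : Fin n → ℕ)
    (π : Equiv.Perm (Fin n)) :
    StrictMono (key ω f ∘ π) ↔ ∃ c, f ∘ π = tl (c + dd (ω ∘ π)) := by
  have e : StrictMono (key ω f ∘ π) ↔ ∀ i, dd (ω ∘ π) i + nx (f ∘ π) i ≤ f (π i) := by
    rw [strictMono_adj]
    refine forall_congr' fun i => ?_
    unfold dd nx
    by_cases hi : i.val + 1 < n
    · have hne : ω (π i) ≠ ω (π ⟨i.val + 1, hi⟩) := fun h => by
        simpa [Fin.ext_iff] using π.injective (hω h)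
      simp only [hi, forall_true_left, dif_pos, Function.comp, key_lt]
      split_ifs with h
      · simp only [h.not_gt, and_false, or_false]; omega
      · simp only [lt_of_le_of_ne (not_lt.1 h) hne, and_true]; omega
    · simp [hi]
  rw [e]
  refine ⟨fun h => ⟨fun i => f (π i) - (dd (ω ∘ π) i + nx (f ∘ π) i), eq_tl fun i => ?_⟩, ?_⟩
  · have := h i
    simp only [Function.comp, Pi.add_apply] at this ⊢
    omega
  · rintro ⟨c, hc⟩ i
    have := congrFun hc i
    rw [tl_eq, ← hc] at this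
    simp only [Function.comp, Pi.add_apply] at this ⊢
    omega

/-- `π` lists the elements in an order compatible with `R`. -/
def LinE (R : Fin n → Fin n → Prop) (π : Equiv.Perm (Fin n)) : Prop :=
  ∀ x y, R x y → π.symm x < π.symm y

open Classical in
/-- The pairs of level `m`. -/
noncomputable def lev (R : Fin n → Fin n → Prop) (u : Equiv.Perm (Fin n) → ℕ) (m : ℕ) :
    Finset (Equiv.Perm (Fin n) × (Fin n → ℕ)) :=
  ((univ.filter (LinE R)) ×ˢ (range (m + 1)).biUnion (finAntidiagonal n)).filter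
    fun p => u p.1 + ∑ i, p.2 i = m

theorem mem_lev {R : Fin n → Fin n → Prop} {u : Equiv.Perm (Fin n) → ℕ} {m : ℕ}
    {p : Equiv.Perm (Fin n) × (Fin n → ℕ)} :
    p ∈ lev R u m ↔ LinE R p.1 ∧ u p.1 + ∑ i, p.2 i = m := by
  simp only [lev, mem_filter, mem_product, mem_univ, true_and, mem_biUnion, mem_range,
    mem_finAntidiagonal, exists_eq_right']
  exact ⟨fun h => ⟨h.1.1, h.2⟩, fun h => ⟨⟨h.1, by omega⟩, h.2⟩⟩

open Classical PowerSeries in
theorem cancel {A : Type} [CommRing A] (x q : A) (R : Fin n → Fin n → Prop)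
    (u v u' v' : Equiv.Perm (Fin n) → ℕ)
    (h : ∀ m, ∑ p ∈ lev R u m, q ^ (v p.1 + ∑ j : Fin n, (j.val + 1) * p.2 j) =
      ∑ p ∈ lev R u' m, q ^ (v' p.1 + ∑ j : Fin n, (j.val + 1) * p.2 j)) :
    ∑ π ∈ univ.filter (LinE R), x ^ u π * q ^ v π =
      ∑ π ∈ univ.filter (LinE R), x ^ u' π * q ^ v' π := by
  set G : A⟦X⟧ := mk fun k => ∑ c ∈ finAntidiagonal n k, q ^ ∑ j : Fin n, (j.val + 1) * c j
    with hG
  have hu : IsUnit G := by
    rw [isUnit_iff_constantCoeff, ← coeff_zero_eq_constantCoeff_apply, hG, coeff_mk]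
    have : finAntidiagonal n (0 : ℕ) = {0} := by
      ext c
      simp [mem_finAntidiagonal, funext_iff]
    simp [this]
  have key : ∀ (u v : Equiv.Perm (Fin n) → ℕ) (m : ℕ),
      coeff m (((∑ π ∈ univ.filter (LinE R), Polynomial.X ^ u π * Polynomial.C (q ^ v π) :
        Polynomial A) : A⟦X⟧) * G) =
      ∑ p ∈ lev R u m, q ^ (v p.1 + ∑ j : Fin n, (j.val + 1) * p.2 j) := by
    intro u v m
    rw [← Polynomial.coeToPowerSeries.ringHom_apply, map_sum, sum_mul, map_sum, lev,
      sum_filter (s := _ ×ˢ _), sum_product]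
    refine sum_congr rfl fun π _ => ?_
    simp only [map_mul, map_pow, Polynomial.coeToPowerSeries.ringHom_apply, Polynomial.coe_X,
      Polynomial.coe_C, mul_assoc]
    rw [coeff_X_pow_mul', ← map_pow, coeff_C_mul, hG, coeff_mk, ← sum_filter]
    split_ifs with hm
    · rw [mul_sum]
      refine sum_congr ?_ fun c _ => (pow_add _ _ _).symm
      ext c
      simp only [mem_finAntidiagonal, mem_filter, mem_biUnion, mem_range, exists_eq_right']
      omega
    · refine (sum_eq_zero fun c hc => ?_).symm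
      have := (mem_filter.1 hc).2
      omega
  have e := Polynomial.coe_injective A (hu.mul_right_cancel
    (PowerSeries.ext fun m => (key u v m).trans ((h m).trans (key u' v' m).symm)))
  simpa [Polynomial.eval_finsetSum] using congrArg (Polynomial.eval x) e

theorem lev_sum {A : Type} [AddCommMonoid A] (φ : ℕ → A) {R : Fin n → Fin n → Prop}
    {ω : Fin n → γ} (hω : Function.Injective ω) {x₀ : Fin n} (h₀ : ∀ y, y ≠ x₀ → ∃ x, R x y)
    (e m : ℕ) :
    ∑ p ∈ lev R (fun π => e + des (ω ∘ π)) m,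
      φ (maj (ω ∘ p.1) + ∑ j : Fin n, (j.val + 1) * p.2 j) =
    ∑ᶠ f ∈ {f : Fin n → ℕ | (∀ x y, R x y → key ω f x < key ω f y) ∧ e + f x₀ = m},
      φ (∑ x, f x) := by
  have hz : ∀ (π : Equiv.Perm (Fin n)) (c : Fin n → ℕ), LinE R π →
      tl (c + dd (ω ∘ π)) (π.symm x₀) = des (ω ∘ π) + ∑ i, c i := by
    intro π c hπ
    have : (π.symm x₀).val = 0 := by
      by_contra hne
      obtain ⟨x, hx⟩ := h₀ (π ⟨0, x₀.pos⟩) fun h => hne (by rw [← h]; simp)
      simpa [Fin.lt_def] using hπ _ _ hx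
    simp [tl, Fin.le_def, this, sum_add_distrib, des_eq, add_comm]
  have hs : ∀ (π : Equiv.Perm (Fin n)) (c : Fin n → ℕ),
      StrictMono (key ω (tl (c + dd (ω ∘ π)) ∘ π.symm) ∘ π) := fun π c =>
    (sorted_iff hω _ π).2 ⟨c, by ext; simp⟩
  rw [← finsum_mem_coe_finset]
  refine finsum_mem_eq_of_bijOn (fun p => tl (p.2 + dd (ω ∘ p.1)) ∘ p.1.symm) ⟨?_, ?_, ?_⟩ ?_
  · rintro ⟨π, c⟩ hp
    obtain ⟨h1, h2⟩ := mem_lev.1 hp
    refine ⟨fun x y hxy => by simpa using hs π c (h1 x y hxy), ?_⟩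
    simp only [Function.comp] at h2 ⊢
    rw [hz π c h1, ← add_assoc]
    exact h2
  · rintro ⟨π, c⟩ - ⟨π', c'⟩ - h
    simp only at h
    obtain rfl : π = π' := Equiv.ext fun i => key_inj hω _
      (congrFun (Tuple.unique_monotone (hs π c).monotone (h ▸ (hs π' c').monotone)) i)
    have h1 : tl (c + dd (ω ∘ π)) = tl (c' + dd (ω ∘ π)) := π.symm.surjective.injective_comp_right h
    refine Prod.ext rfl (funext fun i => ?_)
    have h2 := tl_eq (c + dd (ω ∘ π)) i
    rw [h1, tl_eq] at h2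
    simpa using h2.symm
  · rintro f ⟨h1, h2⟩
    obtain ⟨π, hm⟩ : ∃ π : Equiv.Perm (Fin n), StrictMono (key ω f ∘ π) := ⟨Tuple.sort (key ω f),
      (Tuple.monotone_sort _).strictMono_of_injective ((key_inj hω f).comp (Equiv.injective _))⟩
    obtain ⟨c, hc⟩ := (sorted_iff hω f _).1 hm
    have hL : LinE R π := fun x y hxy => hm.lt_iff_lt.1 (by simpa using h1 x y hxy)
    refine ⟨(π, c), mem_lev.2 ⟨hL, ?_⟩, by simp only; rw [← hc]; ext; simp⟩
    simp only
    rw [add_assoc, ← hz _ c hL, ← hc]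
    simpa using h2
  · rintro ⟨π, c⟩ -
    simp only [Function.comp]
    rw [Equiv.sum_comp π.symm, sum_tl, maj_eq, ← sum_add_distrib]
    exact congrArg φ (sum_congr rfl fun j _ => by simp only [Pi.add_apply]; ring)

open Classical in
theorem shift {A : Type} [CommRing A] (x q : A) {R : Fin n → Fin n → Prop}
    {ω : Fin n → γ} (hω : Function.Injective ω) {ω' : Fin n → γ'} (hω' : Function.Injective ω')
    {x₀ : Fin n} (h₀ : ∀ y, y ≠ x₀ → ∃ x, R x y) (ρ : Fin n → ℕ)
    (hR : ∀ x y, R x y → ω' x < ω' y ∧ (ω x < ω y ∧ ρ x = ρ y ∨ ω y < ω x ∧ ρ x = ρ y + 1))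
    (hρ : ∀ x, ρ x = 0 ∨ ∃ y, R x y ∧ ρ x = ρ y + 1) :
    ∑ π ∈ univ.filter (LinE R), x ^ des (ω ∘ π) * q ^ maj (ω ∘ π) =
      x ^ ρ x₀ * q ^ (∑ y, ρ y) *
        ∑ π ∈ univ.filter (LinE R), x ^ des (ω' ∘ π) * q ^ maj (ω' ∘ π) := by
  have e := cancel x q R (fun π => 0 + des (ω ∘ π)) (fun π => maj (ω ∘ π))
    (fun π => ρ x₀ + des (ω' ∘ π)) (fun π => ∑ y, ρ y + maj (ω' ∘ π)) fun m => by
    have h1 := lev_sum (fun k => q ^ k) hω h₀ 0 m
    have h2 := lev_sum (fun k => q ^ (∑ y, ρ y + k)) hω' h₀ (ρ x₀) m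
    simp only [add_assoc]
    rw [h1, h2]
    have hk : ∀ (g : Fin n → ℕ) (x y : Fin n), R x y →
        (key ω (ρ + g) x < key ω (ρ + g) y ↔ key ω' g x < key ω' g y) := by
      intro g x y hxy
      obtain ⟨h3, h4 | h4⟩ := hR x y hxy
      · simp only [key_lt, h3, h4.1, and_true, Pi.add_apply]; omega
      · simp only [key_lt, h3, h4.1.not_gt, and_true, and_false, or_false, Pi.add_apply]; omega
    refine (finsum_mem_eq_of_bijOn (fun g => ρ + g) ⟨?_, fun _ _ _ _ h => add_left_cancel h, ?_⟩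
      fun g _ => by simp [sum_add_distrib]).symm
    · exact fun g hg => ⟨fun x y hxy => (hk g x y hxy).2 (hg.1 x y hxy), by simpa using hg.2⟩
    · rintro f ⟨h3, h4⟩
      have hle : ∀ (k : ℕ) (x : Fin n), ρ x = k → k ≤ f x := by
        intro k
        induction k with
        | zero => simp
        | succ k ih =>
          intro x hx
          obtain ⟨y, hy, hy'⟩ := (hρ x).resolve_left (by omega)
          have h5 := ih y (by omega)
          obtain ⟨-, h6 | h6⟩ := hR x y hy
          · omega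
          · have := key_lt.1 (h3 x y hy)
            simp only [h6.1.not_gt, and_false, or_false] at this
            omega
      obtain ⟨g, rfl⟩ : ∃ g, f = ρ + g :=
        ⟨f - ρ, funext fun x => by have := hle _ x rfl; simp; omega⟩
      exact ⟨g, ⟨fun x y hxy => (hk g x y hxy).1 (h3 x y hxy), by simpa using h4⟩, rfl⟩
  simp only [zero_add] at e
  rw [e, mul_sum]
  exact sum_congr rfl fun π _ => by ring

end Pool.Agent.Lib.MP_5b4ede_co
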