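import Pool.Agent.Lib.MP_5b4ede_co.Struct

/-! The linear extensions of the finer order as words. -/

namespace Pool.Agent.Lib.MP_5b4ede_co
open Finset

/-- Number of occurrences of the letter `c` among the first `k` letters of `w`. -/
def occ {n m : ℕ} (w : Fin n → Fin m) (c : Fin m) (k : ℕ) : ℕ :=
  (univ.filter fun i => i.val < k ∧ w i = c).card

theorem occ_mono {n m : ℕ} (w : Fin n → Fin m) (c : Fin m) {k l : ℕ} (h : k ≤ l) :
    occ w c k ≤ occ w c l :=
  card_le_card fun i hi => by
    simp only [mem_filter, mem_univ, true_and] at hi ⊢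
    exact ⟨hi.1.trans_le h, hi.2⟩

theorem occ_lt {n m : ℕ} (w : Fin n → Fin m) (i : Fin n) {l : ℕ} (h : i.val < l) :
    occ w (w i) i.val < occ w (w i) l :=
  card_lt_card ⟨fun j hj => by
    simp only [mem_filter, mem_univ, true_and] at hj ⊢
    exact ⟨hj.1.trans h, hj.2⟩, fun hs => by simpa using hs (x := i) (by simpa using h)⟩

theorem occ_total {n m : ℕ} (w : Fin n → Fin m) (c : Fin m) :
    occ w c n = (univ.filter fun i => w i = c).card := by
  simp [occ]

variable {s a r b : ℕ}

/-- The letter of an element. -/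
def lett (x : Fin (s * (a + r + b))) : Fin (a + b + 1) :=
  ⟨ltr a r (x.val % (a + r + b)), by
    have := (bounds x).2
    unfold ltr
    split_ifs <;> omega⟩

/-- The place of a position among the positions of a tooth with the same letter. -/
def off (a r p : ℕ) : ℕ := if a ≤ p ∧ p < a + r then p - a else 0

/-- The place of an element among the elements with the same letter. -/
def idx (x : Fin (s * (a + r + b))) : ℕ :=
  (s - 1 - x.val / (a + r + b)) * wt a r (lett x).val + off a r (x.val % (a + r + b))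

theorem off_lt (hr : 1 ≤ r) (x : Fin (s * (a + r + b))) :
    off a r (x.val % (a + r + b)) < wt a r (lett x).val := by
  simp only [off, wt, lett, ltr]
  split_ifs <;> omega

theorem idx_lt_iff (hr : 1 ≤ r) {x y : Fin (s * (a + r + b))} (h : lett x = lett y) :
    idx x < idx y ↔ y.val / (a + r + b) < x.val / (a + r + b) ∨
      x.val / (a + r + b) = y.val / (a + r + b) ∧ x.val % (a + r + b) < y.val % (a + r + b) := by
  have h1 := off_lt hr x
  have h2 := (bounds x).1
  have h3 := (bounds y).1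
  rw [h] at h1
  rw [idx, idx, h, mul_add_lt _ _ h1 (off_lt hr y)]
  have h4 := congrArg Fin.val h
  simp only [lett, ltr, off] at h4 ⊢
  split_ifs at h4 ⊢ <;> omega

theorem eq_of_idx (hr : 1 ≤ r) {x y : Fin (s * (a + r + b))} (h : lett x = lett y)
    (h' : idx x = idx y) : x = y := by
  have h1 := idx_lt_iff hr h
  have h2 := idx_lt_iff hr h.symm
  exact eq_dm (by omega) (by omega)

theorem rk_lt {t : ℕ} (x : Fin (s * t)) : s - 1 - x.val / t < s := by
  have h2 := (bounds x).1
  generalize x.val / t = k at h2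
  omega

theorem idx_lt (hr : 1 ≤ r) (x : Fin (s * (a + r + b))) : idx x < s * wt a r (lett x).val := by
  have h1 := off_lt hr x
  exact (mul_add_lt _ s h1 (Nat.zero_lt_of_lt h1)).2 (Or.inl (rk_lt x))

theorem exists_off (hr : 1 ≤ r) (c : Fin (a + b + 1)) {u o : ℕ} (hu : u < s)
    (ho : o < wt a r c.val) : ∃ z : Fin (s * (a + r + b)), lett z = c ∧
      s - 1 - z.val / (a + r + b) = u ∧ idx z = u * wt a r c.val + o := by
  have hc := c.2
  obtain ⟨z, hz, hz'⟩ := exists_el (s := s) (t := a + r + b) (j := s - 1 - u)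
    (p := if c.val ≤ a then c.val + o else c.val + r - 1) (by omega)
    (by unfold wt at ho; split_ifs at ho ⊢ <;> omega)
  have h1 : lett z = c := Fin.ext (by
    simp only [lett, hz', ltr]
    unfold wt at ho
    split_ifs at ho ⊢ <;> omega)
  have h2 : s - 1 - z.val / (a + r + b) = u := by omega
  refine ⟨z, h1, h2, ?_⟩
  rw [idx, h1, h2, hz', off]
  unfold wt at ho
  congr 1
  split_ifs at ho ⊢ <;> omega

theorem wt_pos (hr : 1 ≤ r) (c : ℕ) : 0 < wt a r c := by
  unfold wt
  split_ifs <;> omega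

theorem exists_idx (hr : 1 ≤ r) (c : Fin (a + b + 1)) {e : ℕ} (he : e < s * wt a r c.val) :
    ∃ z : Fin (s * (a + r + b)), lett z = c ∧ idx z = e := by
  obtain ⟨z, h1, -, h2⟩ := exists_off (s := s) hr c (Nat.div_lt_of_lt_mul (mul_comm s _ ▸ he))
    (Nat.mod_lt e (wt_pos hr _))
  exact ⟨z, h1, by rw [h2, Nat.div_add_mod']⟩

/-- The natural labelling. -/
def nat (x : Fin (s * (a + r + b))) : Fin (a + b + 1) ×ₗ ℕ := toLex (lett x, idx x)

theorem nat_lt {x y : Fin (s * (a + r + b))} :
    nat x < nat y ↔ lett x < lett y ∨ lett x = lett y ∧ idx x < idx y := by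
  simp [nat, Prod.Lex.toLex_lt_toLex]

theorem nat_inj (hr : 1 ≤ r) : Function.Injective (nat (s := s) (a := a) (r := r) (b := b)) :=
  fun _ _ h => eq_of_idx hr (congrArg (fun z => (ofLex z).1) h) (congrArg (fun z => (ofLex z).2) h)

theorem Rel.le (hr : 1 ≤ r) {x y : Fin (s * (a + r + b))} (h : Rel s a r b x y) :
    lett x ≤ lett y :=
  h.elim (fun h => ltr_mono a hr h.2.le) fun h => h.2

theorem Rel.nat_lt (hr : 1 ≤ r) {x y : Fin (s * (a + r + b))} (h : Rel s a r b x y) :
    nat x < nat y :=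
  MP_5b4ede_co.nat_lt.2 ((h.le hr).lt_or_eq.imp_right fun e =>
    ⟨e, (idx_lt_iff hr e).2 (by unfold Rel at h; omega)⟩)

variable {π : Equiv.Perm (Fin (s * (a + r + b)))}

theorem LinE.chain (hr : 1 ≤ r) (h : LinE (Rel s a r b) π) {x y : Fin (s * (a + r + b))}
    (e : lett x = lett y) (h1 : idx x < idx y) : π.symm x < π.symm y :=
  ((idx_lt_iff hr e).1 h1).elim (fun h2 => h.down x y h2 (congrArg Fin.val e).le)
    fun h2 => h x y (Or.inl h2)

theorem LinE.occ_eq (hr : 1 ≤ r) (h : LinE (Rel s a r b) π) (i : Fin (s * (a + r + b))) :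
    occ (lett ∘ π) (lett (π i)) i.val = idx (π i) := by
  rw [← card_range (idx (π i))]
  refine card_bij (fun j _ => idx (π j)) (fun j hj => ?_) (fun j hj l hl e => ?_) fun e he => ?_
  · simp only [mem_filter, mem_univ, true_and, Function.comp] at hj
    rcases lt_trichotomy (idx (π j)) (idx (π i)) with e | e | e
    · exact mem_range.2 e
    · exact absurd (π.injective (eq_of_idx hr hj.2 e)) (Fin.lt_def.2 hj.1).ne
    · exact absurd (by simpa using h.chain hr hj.2.symm e) (Fin.lt_def.2 hj.1).not_gt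
  · simp only [mem_filter, mem_univ, true_and, Function.comp] at hj hl
    exact π.injective (eq_of_idx hr (hj.2.trans hl.2.symm) e)
  · obtain ⟨z, hz, rfl⟩ := exists_idx (s := s) hr _ ((mem_range.1 he).trans (idx_lt hr (π i)))
    refine ⟨π.symm z, mem_filter.2 ⟨mem_univ _, ?_, by simpa using hz⟩, by simp⟩
    simpa only [Equiv.symm_apply_apply, Fin.lt_def] using h.chain hr hz (mem_range.1 he)

theorem LinE.before (hr : 1 ≤ r) (h : LinE (Rel s a r b) π) (z : Fin (s * (a + r + b))) (k : ℕ) :
    (π.symm z).val < k ↔ idx z < occ (lett ∘ π) (lett z) k := by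
  have h1 := h.occ_eq hr (π.symm z)
  rw [Equiv.apply_symm_apply] at h1
  refine ⟨fun hk => ?_, fun hk => ?_⟩
  · simpa [h1] using occ_lt (lett ∘ π) (π.symm z) hk
  · by_contra hc
    have := occ_mono (lett ∘ π) (lett z) (not_lt.1 hc)
    omega

theorem total (hr : 1 ≤ r) (π : Equiv.Perm (Fin (s * (a + r + b)))) (c : Fin (a + b + 1)) :
    (univ.filter fun i => (lett ∘ π) i = c).card = s * wt a r c.val := by
  rw [← card_range (s * wt a r c.val)]
  refine card_bij (fun j _ => idx (π j)) (fun j hj => ?_) (fun j hj l hl e => ?_) fun e he => ?_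
  · simp only [mem_filter, mem_univ, true_and, Function.comp] at hj
    exact mem_range.2 (hj ▸ idx_lt hr (π j))
  · simp only [mem_filter, mem_univ, true_and, Function.comp] at hj hl
    exact π.injective (eq_of_idx hr (hj.trans hl.symm) e)
  · obtain ⟨z, hz, rfl⟩ := exists_idx (s := s) hr _ (mem_range.1 he)
    exact ⟨π.symm z, by simpa using hz, by simp⟩

theorem LinE.isWord (hr : 1 ≤ r) (h : LinE (Rel s a r b) π) : IsWord s a r b (lett ∘ π) := by
  refine ⟨total hr π, fun c d k hcd => ?_⟩
  change _ * occ _ d k ≤ _ * occ _ c k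
  rcases Nat.eq_zero_or_pos (occ (lett ∘ π) d k) with h0 | h0
  · simp [h0]
  have h1 : occ (lett ∘ π) d k ≤ s * wt a r d.val :=
    total hr π d ▸ card_le_card fun i hi => by
      simp only [mem_filter, mem_univ, true_and] at hi ⊢
      exact hi.2
  obtain ⟨z, rfl, hz⟩ := exists_idx (s := s) hr d (e := occ (lett ∘ π) d k - 1) (by omega)
  have h2 := (h.before hr z k).2 (by omega)
  have h3 := (bounds z).1
  have h4 := wt_pos (a := a) hr c.val
  obtain ⟨y, rfl, hy, hy'⟩ := exists_off (s := s) hr c (u := s - 1 - z.val / (a + r + b))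
    (o := wt a r c.val - 1) (rk_lt z) (by omega)
  have h5 := (bounds y).1
  have h6 := (h.before hr y k).1 ((Fin.lt_def.1 (h y z (Or.inl ⟨by omega, lt_of_not_ge fun e =>
    (ltr_mono a hr e).not_gt hcd⟩))).trans h2)
  have h7 := off_lt hr z
  rw [idx] at hz
  generalize s - 1 - z.val / (a + r + b) = u at hz hy'
  calc _ ≤ wt a r (lett y).val * ((u + 1) * wt a r (lett z).val) :=
        Nat.mul_le_mul_left _ (by rw [Nat.succ_mul]; omega)
    _ = wt a r (lett z).val * ((u + 1) * wt a r (lett y).val) := by ring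
    _ ≤ _ := Nat.mul_le_mul_left _ (by rw [Nat.succ_mul]; omega)

theorem IsWord.exists_linE (hr : 1 ≤ r) {w : Fin (s * (a + r + b)) → Fin (a + b + 1)}
    (hw : IsWord s a r b w) : ∃ π : Equiv.Perm (Fin (s * (a + r + b))),
      LinE (Rel s a r b) π ∧ lett ∘ π = w := by
  choose z hz hz' using fun i => exists_idx (s := s) hr (w i) (e := occ w (w i) i.val)
    (by rw [← hw.1, ← occ_total]; exact occ_lt w i i.2)
  have hlt : ∀ i j, w i = w j → (i < j ↔ idx (z i) < idx (z j)) := fun i j e => by
    rw [hz', hz', ← e]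
    exact ⟨fun h => occ_lt w i h, fun h => lt_of_not_ge fun h' => (occ_mono w _ h').not_gt h⟩
  have hinj : Function.Injective z := fun i j e => by
    have e' : w i = w j := by rw [← hz, ← hz, e]
    exact le_antisymm (not_lt.1 fun h => by simpa [e] using (hlt j i e'.symm).1 h)
      (not_lt.1 fun h => by simpa [e] using (hlt i j e').1 h)
  refine ⟨Equiv.ofBijective z (Finite.injective_iff_bijective.1 hinj), fun x y hxy => ?_,
    funext hz⟩
  obtain ⟨i, rfl⟩ := Finite.surjective_of_injective hinj x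
  obtain ⟨j, rfl⟩ := Finite.surjective_of_injective hinj y
  simp only [Equiv.ofBijective_symm_apply_apply]
  rcases nat_lt.1 (hxy.nat_lt hr) with h | h
  · by_contra hc
    have hji : j.val + 1 ≤ i.val := Fin.lt_def.1 (lt_of_le_of_ne (not_lt.1 hc) fun e => by
      rw [e] at h
      exact h.false)
    have h1 : _ * occ w (w j) (j.val + 1) ≤ _ * occ w (w i) (j.val + 1) :=
      hw.2 (w i) (w j) (j.val + 1) (by rwa [hz, hz] at h)
    have h2 := occ_lt w j (Nat.lt_succ_self _)
    have h3 := occ_mono w (w i) hji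
    have h4 := off_lt hr (z i)
    have h5 : s - 1 - (z i).val / (a + r + b) ≤ s - 1 - (z j).val / (a + r + b) := by
      unfold Rel at hxy
      omega
    rw [← hz', idx] at h2 h3
    rw [hz] at h h2 h3 h4
    rw [hz] at h
    generalize s - 1 - (z i).val / (a + r + b) = u at h3 h5
    generalize s - 1 - (z j).val / (a + r + b) = u' at h2 h5
    have h6 := Nat.mul_le_mul_right (wt a r (w j).val) h5
    have h7 : wt a r (w i).val = 1 ∨ wt a r (w j).val = 1 := by
      have := Fin.lt_def.1 h
      unfold wt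
      split_ifs <;> omega
    rcases h7 with h7 | h7 <;> rw [h7] at h1 <;> nlinarith
  · exact (hlt i j (by rw [← hz, ← hz, h.1])).2 h.2

theorem LinE.stat (hr : 1 ≤ r) (h : LinE (Rel s a r b) π) :
    des (nat ∘ π) = des (lett ∘ π) ∧ maj (nat ∘ π) = maj (lett ∘ π) :=
  dd_congr fun i hi => nat_lt.trans ⟨fun e => e.resolve_right fun e => by
    simpa [Fin.lt_def] using h.chain hr e.1 e.2, Or.inl⟩

open Classical in
theorem family {A : Type} [CommRing A] (x q : A) (hs : 1 ≤ s) (hr : 1 ≤ r) :
    ∑ π ∈ univ.filter (fun π : Equiv.Perm (Fin (s * (a + r + b))) =>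
      IsLinExt s (a + r + b) π ∧ Avoids π (pat a b)), x ^ des π * q ^ maj π =
    x ^ (s - 1) * q ^ ((a + r + b) * s.choose 2) *
      ∑ w ∈ univ.filter (IsWord s a r b), x ^ des w * q ^ maj w := by
  obtain ⟨x₀, h1, h2⟩ := exists_el (s := s) (t := a + r + b) (j := s - 1) (p := 0) (by omega)
    (by omega)
  have e := shift x q (R := Rel s a r b) (ω := id) Function.injective_id (nat_inj hr) (x₀ := x₀)
    (fun y hy => by
      obtain ⟨h3, h4⟩ := bounds y
      rcases Nat.eq_zero_or_pos (y.val % (a + r + b)) with h | h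
      · obtain ⟨z, hz, hz'⟩ := exists_el (s := s) (t := a + r + b) (j := y.val / (a + r + b) + 1)
          (lt_of_not_ge fun e => hy (eq_dm (by omega) (by omega))) h4
        exact ⟨z, Or.inr ⟨hz, by rw [hz']⟩⟩
      · obtain ⟨z, hz, hz'⟩ := exists_el h3 (h.trans h4)
        exact ⟨z, Or.inl ⟨hz, by omega⟩⟩)
    (fun y => y.val / (a + r + b))
    (fun x y h => ⟨h.nat_lt hr, by simp only [id, lt_dm]; unfold Rel at h; omega⟩)
    (fun y => by
      obtain ⟨h3, h4⟩ := bounds y
      obtain ⟨z, hz, hz'⟩ := exists_el (s := s) (j := y.val / (a + r + b) - 1) (by omega) h4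
      exact (Nat.eq_zero_or_pos _).imp_right fun h =>
        ⟨z, Or.inr ⟨by omega, by rw [hz']⟩, by omega⟩)
  simp only [Function.id_comp, h1, sum_tooth] at e
  rw [filter_congr (q := LinE (Rel s a r b)) fun π _ =>
    ⟨fun h => linE_of_avoids h.1 h.2, fun h => h.avoids hr⟩, e]
  congr 1
  refine sum_bij (fun π _ => lett ∘ π) (fun π h => ?_) (fun π h π' h' e => ?_) (fun w h => ?_)
    fun π h => ?_
  · exact mem_filter.2 ⟨mem_univ _, (mem_filter.1 h).2.isWord hr⟩
  · refine Equiv.ext fun i => eq_of_idx hr (congrFun e i) ?_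
    rw [← (mem_filter.1 h).2.occ_eq hr, ← (mem_filter.1 h').2.occ_eq hr, e]
    exact congrArg (fun c => occ _ c _) (congrFun e i)
  · obtain ⟨π, h3, h4⟩ := (mem_filter.1 h).2.exists_linE hr
    exact ⟨π, mem_filter.2 ⟨mem_univ _, h3⟩, h4⟩
  · rw [((mem_filter.1 h).2.stat hr).1, ((mem_filter.1 h).2.stat hr).2]

end Pool.Agent.Lib.MP_5b4ede_co
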