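import Pool.Agent.Lib.MP_5b4ede_co.PP

/-! The permutations that avoid `pat a b` are the linear extensions of a finer order. -/

namespace Pool.Agent.Lib.MP_5b4ede_co
open Finset

theorem mul_add_lt {w o o' : ℕ} (u u' : ℕ) (ho : o < w) (ho' : o' < w) :
    u * w + o < u' * w + o' ↔ u < u' ∨ u = u' ∧ o < o' := by
  rcases lt_trichotomy u u' with h | rfl | h
  · have := Nat.mul_le_mul_right w (Nat.succ_le_of_lt h)
    rw [Nat.succ_mul] at this
    omega
  · omega
  · have := Nat.mul_le_mul_right w (Nat.succ_le_of_lt h)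
    rw [Nat.succ_mul] at this
    omega

theorem exists_el {s t j p : ℕ} (hj : j < s) (hp : p < t) :
    ∃ z : Fin (s * t), z.val / t = j ∧ z.val % t = p := by
  have h := (mul_add_lt j s hp (Nat.zero_lt_of_lt hp)).2 (Or.inl hj)
  refine ⟨⟨j * t + p, h⟩, ?_, ?_⟩
  · simp [add_comm, Nat.add_mul_div_right _ _ (Nat.zero_lt_of_lt hp), Nat.div_eq_of_lt hp]
  · simp [Nat.mod_eq_of_lt hp]

theorem bounds {s t : ℕ} (x : Fin (s * t)) : x.val / t < s ∧ x.val % t < t :=
  ⟨Nat.div_lt_of_lt_mul (mul_comm s t ▸ x.2), Nat.mod_lt _ (Nat.pos_of_mul_pos_left x.pos)⟩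

theorem lt_dm {s t : ℕ} (x y : Fin (s * t)) :
    x < y ↔ x.val / t < y.val / t ∨ x.val / t = y.val / t ∧ x.val % t < y.val % t := by
  rw [← mul_add_lt _ _ (bounds x).2 (bounds y).2, Nat.div_add_mod', Nat.div_add_mod', Fin.lt_def]

theorem eq_dm {s t : ℕ} {x y : Fin (s * t)} (h : x.val / t = y.val / t)
    (h' : x.val % t = y.val % t) : x = y :=
  le_antisymm (not_lt.1 fun e => by have := (lt_dm _ _).1 e; omega)
    (not_lt.1 fun e => by have := (lt_dm _ _).1 e; omega)

/-- The letter of a position in a tooth. -/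
def ltr (a r p : ℕ) : ℕ := if p < a then p else if p < a + r then a else p + 1 - r

theorem ltr_mono (a : ℕ) {r p p' : ℕ} (hr : 1 ≤ r) (h : p ≤ p') : ltr a r p ≤ ltr a r p' := by
  unfold ltr
  split_ifs <;> omega

variable {s a r b : ℕ}

/-- The generating relations of the finer order. -/
def Rel (s a r b : ℕ) (x y : Fin (s * (a + r + b))) : Prop :=
  x.val / (a + r + b) = y.val / (a + r + b) ∧ x.val % (a + r + b) < y.val % (a + r + b) ∨
  x.val / (a + r + b) = y.val / (a + r + b) + 1 ∧
    ltr a r (x.val % (a + r + b)) ≤ ltr a r (y.val % (a + r + b))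

theorem LinE.far {π : Equiv.Perm (Fin (s * (a + r + b)))} (h : LinE (Rel s a r b) π) (k : ℕ) :
    ∀ x y : Fin (s * (a + r + b)), x.val / (a + r + b) = y.val / (a + r + b) + 1 + k →
      ltr a r (x.val % (a + r + b)) ≤ ltr a r (y.val % (a + r + b)) → π.symm x < π.symm y := by
  induction k with
  | zero => exact fun x y h1 h2 => h x y (Or.inr ⟨h1, h2⟩)
  | succ k ih =>
    intro x y h1 h2
    obtain ⟨h3, h4⟩ := bounds x
    obtain ⟨z, hz, hz'⟩ := exists_el (s := s) (j := y.val / (a + r + b) + 1 + k) (by omega) h4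
    exact (h x z (Or.inr ⟨by omega, by rw [hz']⟩)).trans (ih z y hz (by rwa [hz']))

theorem LinE.down {π : Equiv.Perm (Fin (s * (a + r + b)))} (h : LinE (Rel s a r b) π)
    (x y : Fin (s * (a + r + b))) (h1 : y.val / (a + r + b) < x.val / (a + r + b))
    (h2 : ltr a r (x.val % (a + r + b)) ≤ ltr a r (y.val % (a + r + b))) : π.symm x < π.symm y :=
  h.far (x.val / (a + r + b) - y.val / (a + r + b) - 1) x y (by omega) h2

theorem LinE.avoids (hr : 1 ≤ r) {π : Equiv.Perm (Fin (s * (a + r + b)))}
    (h : LinE (Rel s a r b) π) : IsLinExt s (a + r + b) π ∧ Avoids π (pat a b) := by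
  constructor
  · rintro x y hne ⟨h1, h2⟩
    rcases h1.lt_or_eq with h1 | h1
    · exact h.down x y h1 (ltr_mono a hr h2)
    · exact h x y (Or.inl ⟨h1.symm, lt_of_le_of_ne h2 fun e => hne (eq_dm h1.symm e)⟩)
  · rintro ⟨u, hu, hp⟩
    have grow : ∀ (k : ℕ) (i j : Fin (a + b + 3)), j.val = i.val + k → j.val ≤ a + b + 1 →
        (π (u i)).val % (a + r + b) + k ≤ (π (u j)).val % (a + r + b) := by
      intro k
      induction k with
      | zero =>
        intro i j h1 _
        obtain rfl : j = i := Fin.ext h1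
        rfl
      | succ k ih =>
        intro i j h1 h2
        have h3 := ih i ⟨i.val + k, by omega⟩ rfl (by simp; omega)
        have h4 := (lt_dm _ _).1 ((hp ⟨i.val + k, by omega⟩ j).2 (by
          simp only [pat]; split_ifs <;> omega))
        by_contra hc
        have h5 := h.down (π (u j)) (π (u ⟨i.val + k, by omega⟩)) (by omega)
          (ltr_mono a hr (by omega))
        simp only [Equiv.symm_apply_apply, hu.lt_iff_lt, Fin.lt_def] at h5
        omega
    have g1 := grow a ⟨0, by omega⟩ ⟨a, by omega⟩ (by simp) (by simp; omega)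
    have g2 := grow b ⟨a + 1, by omega⟩ ⟨a + b + 1, by omega⟩ (by simp; omega) (by simp)
    have g3 := (bounds (π (u ⟨a + b + 1, by omega⟩))).2
    have h1 := (lt_dm _ _).1 ((hp ⟨a, by omega⟩ ⟨a + b + 2, by omega⟩).2 (by
      simp only [pat]; split_ifs <;> omega))
    have h2 := (lt_dm _ _).1 ((hp ⟨a + b + 2, by omega⟩ ⟨a + 1, by omega⟩).2 (by
      simp only [pat]; split_ifs <;> omega))
    by_cases e : (π (u ⟨a, by omega⟩)).val / (a + r + b) < (π (u ⟨a + 1, by omega⟩)).val / (a + r + b)
    · have h5 := h.down _ _ e (by unfold ltr; split_ifs <;> omega)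
      simp [hu.lt_iff_lt, Fin.lt_def] at h5
    · have h5 := h (π (u ⟨a + b + 2, by omega⟩)) (π (u ⟨a + 1, by omega⟩)) (Or.inl (by omega))
      simp only [Equiv.symm_apply_apply, hu.lt_iff_lt, Fin.lt_def] at h5
      omega

theorem linE_of_avoids {π : Equiv.Perm (Fin (s * (a + r + b)))}
    (h : IsLinExt s (a + r + b) π) (hav : Avoids π (pat a b)) : LinE (Rel s a r b) π := by
  have hlt : ∀ x y : Fin (s * (a + r + b)), y.val / (a + r + b) ≤ x.val / (a + r + b) →
      x.val % (a + r + b) ≤ y.val % (a + r + b) → (y.val / (a + r + b) < x.val / (a + r + b) ∨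
      x.val % (a + r + b) < y.val % (a + r + b)) → π.symm x < π.symm y :=
    fun x y h1 h2 h3 => h x y (by rintro rfl; omega) ⟨h1, h2⟩
  have hle : ∀ x y : Fin (s * (a + r + b)), y.val / (a + r + b) ≤ x.val / (a + r + b) →
      x.val % (a + r + b) ≤ y.val % (a + r + b) → π.symm x ≤ π.symm y := fun x y h1 h2 =>
    (eq_or_ne x y).elim (fun e => e ▸ le_rfl) fun e => (h x y e ⟨h1, h2⟩).le
  rintro x y (⟨h1, h2⟩ | ⟨h1, h2⟩)
  · exact hlt x y (by omega) (by omega) (by omega)
  by_cases h3 : x.val % (a + r + b) ≤ y.val % (a + r + b)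
  · exact hlt x y (by omega) h3 (by omega)
  have h4 : a ≤ y.val % (a + r + b) ∧ x.val % (a + r + b) < a + r := by
    unfold ltr at h2
    split_ifs at h2 <;> omega
  by_contra hc
  have hyx : π.symm y < π.symm x := lt_of_le_of_ne (not_lt.1 hc) fun e => by
    obtain rfl := π.symm.injective e
    omega
  have hx := (bounds x).1
  have : ∀ i : Fin (a + b + 3), ∃ z : Fin (s * (a + r + b)),
      z.val / (a + r + b) = (if i.val ≤ a ∨ i.val = a + b + 2 then y.val / (a + r + b)
        else y.val / (a + r + b) + 1) ∧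
      z.val % (a + r + b) = if i.val ≤ a then i.val else if i.val = a + b + 2 then a + r + b - 1
        else i.val + r - 2 := fun i =>
    exists_el (by split_ifs <;> omega) (by have := i.2; split_ifs <;> omega)
  choose E hE hE' using this
  refine hav ⟨fun i => π.symm (E i), (strictMono_adj _).2 fun i hi => ?_, fun i j => ?_⟩
  · have e1 := hE i
    have e2 := hE' i
    have e3 := hE ⟨i.val + 1, hi⟩
    have e4 := hE' ⟨i.val + 1, hi⟩
    simp only at e3 e4
    by_cases hia : i.val = a
    · exact (hle _ y (by split_ifs at e1 <;> omega) (by split_ifs at e2 <;> omega)).trans_lt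
        (hyx.trans_le (hle x _ (by split_ifs at e3 <;> omega) (by split_ifs at e4 <;> omega)))
    · exact hlt _ _ (by split_ifs at e1 e3 <;> omega) (by split_ifs at e2 e4 <;> omega)
        (by split_ifs at e1 e2 e3 e4 <;> omega)
  · have := i.2
    have := j.2
    simp only [Equiv.apply_symm_apply, lt_dm, hE, hE', pat]
    split_ifs <;> omega

theorem sum_tooth (s t : ℕ) : ∑ x : Fin (s * t), x.val / t = t * s.choose 2 := by
  rw [Fin.sum_univ_eq_sum_range (fun x => x / t)]
  induction s with
  | zero => simp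
  | succ s ih =>
    rw [Nat.succ_mul, sum_range_add, ih, Nat.choose_succ_succ' s 1, Nat.choose_one_right,
      sum_congr rfl (g := fun _ => s) fun i hi => ?_]
    · simp; ring
    · have := mem_range.1 hi
      rw [add_comm, Nat.add_mul_div_right _ _ (by omega), Nat.div_eq_of_lt this, zero_add]

end Pool.Agent.Lib.MP_5b4ede_co
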