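import Pool.Agent.Lib.MP_5b4ede_co.Defs
import Pool.Agent.Lib.MP_5b4ede_co.Gauss

set_option autoImplicit false

namespace Pool.Agent.Lib.MP_5b4ede_co

open Finset

/-- Number of occurrences of the letter `c` among the first `k` letters of `w`. -/
def cnt {n : ℕ} (w : Fin n → Fin 2) (c : Fin 2) (k : ℕ) : ℕ :=
  ∑ i : Fin n, if i.val < k ∧ w i = c then 1 else 0

theorem cnt_eq_card {n : ℕ} (w : Fin n → Fin 2) (c : Fin 2) (k : ℕ) :
    (univ.filter fun i : Fin n => i.val < k ∧ w i = c).card = cnt w c k := by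
  rw [card_filter]; rfl

theorem cnt_total {n : ℕ} (w : Fin n → Fin 2) (c : Fin 2) :
    (univ.filter fun i : Fin n => w i = c).card = cnt w c n := by
  rw [← cnt_eq_card]
  congr 1
  ext i
  simp

theorem cnt_snoc {n : ℕ} (w : Fin n → Fin 2) (x c : Fin 2) (k : ℕ) :
    cnt (Fin.snoc w x : Fin (n + 1) → Fin 2) c k
      = cnt w c k + if n < k ∧ x = c then 1 else 0 := by
  unfold cnt
  rw [Fin.sum_univ_castSucc]
  simp

theorem cnt_of_ge {n : ℕ} (w : Fin n → Fin 2) (c : Fin 2) {k : ℕ} (hk : n ≤ k) :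
    cnt w c k = cnt w c n := by
  unfold cnt
  refine sum_congr rfl fun i _ => ?_
  have h1 : i.val < k := lt_of_lt_of_le i.2 hk
  simp [h1]

theorem cnt_add {n : ℕ} (w : Fin n → Fin 2) : cnt w 0 n + cnt w 1 n = n := by
  unfold cnt
  rw [← sum_add_distrib]
  have : ∀ i : Fin n, ((if i.val < n ∧ w i = 0 then 1 else 0) +
      (if i.val < n ∧ w i = 1 then 1 else 0) : ℕ) = 1 := by
    intro i
    have h1 := i.2
    have : w i = 0 ∨ w i = 1 := by omega
    rcases this with h | h <;> simp [h]
  simp only [this]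
  simp

theorem cnt_succ {n : ℕ} (w : Fin n → Fin 2) (c : Fin 2) (i : Fin n) :
    cnt w c (i.val + 1) = cnt w c i.val + if w i = c then 1 else 0 := by
  unfold cnt
  have : (if w i = c then 1 else 0 : ℕ) = ∑ j : Fin n, if j = i ∧ w j = c then 1 else 0 := by
    rw [sum_eq_single i]
    · simp
    · intro j _ hj; simp [hj]
    · simp
  rw [this, ← sum_add_distrib]
  refine sum_congr rfl fun j _ => ?_
  rcases lt_trichotomy j i with h | h | h
  · have h1 : j.val < i.val := h
    have h2 : j.val < i.val + 1 := by omega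
    simp [h1, h2, h.ne]
  · subst h; simp
  · have h1 : ¬ j.val < i.val := by have : i.val < j.val := h; omega
    have h2 : ¬ j.val < i.val + 1 := by have : i.val < j.val := h; omega
    simp [h1, h2, h.ne']

theorem cnt_mono {n : ℕ} (w : Fin n → Fin 2) (c : Fin 2) {k l : ℕ} (h : k ≤ l) :
    cnt w c k ≤ cnt w c l := by
  unfold cnt
  refine sum_le_sum fun i _ => ?_
  by_cases h1 : i.val < k ∧ w i = c
  · have h2 : i.val < l ∧ w i = c := ⟨lt_of_lt_of_le h1.1 h, h1.2⟩
    simp [h1, h2]
  · simp [h1]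

/-- Ballot condition. -/
def Ballot {n : ℕ} (w : Fin n → Fin 2) : Prop := ∀ k, cnt w 1 k ≤ cnt w 0 k

theorem ballot_snoc {n : ℕ} (w : Fin n → Fin 2) (x : Fin 2) :
    Ballot (Fin.snoc w x : Fin (n + 1) → Fin 2) ↔
      Ballot w ∧ (x = 1 → 2 * (cnt w 1 n + 1) ≤ n + 1) := by
  have hadd := cnt_add w
  constructor
  · intro h
    refine ⟨fun k => ?_, fun hx => ?_⟩
    · by_cases hk : k ≤ n
      · have := h k
        simp only [cnt_snoc] at this
        have h1 : ¬ n < k := by omega
        simpa [h1] using this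
      · have := h n
        simp only [cnt_snoc] at this
        rw [cnt_of_ge w 1 (k := k) (by omega), cnt_of_ge w 0 (k := k) (by omega)]
        simpa using this
    · have := h (n + 1)
      simp only [cnt_snoc] at this
      rw [cnt_of_ge w 1 (k := n + 1) (by omega), cnt_of_ge w 0 (k := n + 1) (by omega)] at this
      subst hx
      simp at this
      omega
  · rintro ⟨h1, h2⟩ k
    simp only [cnt_snoc]
    have := h1 k
    by_cases hk : n < k
    · have hx : x = 0 ∨ x = 1 := by omega
      rcases hx with hx | hx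
      · subst hx; simp [hk]; omega
      · have := h2 hx
        subst hx
        rw [cnt_of_ge w 1 hk.le, cnt_of_ge w 0 hk.le]
        simp [hk]; omega
    · simpa [hk] using this

/-- Sum of the positions of the ascents. -/
def peak {n : ℕ} (f : Fin n → Fin 2) : ℕ :=
  ∑ i : Fin n, if h : i.val + 1 < n then (if f i < f ⟨i.val + 1, h⟩ then i.val + 1 else 0) else 0

theorem stat_snoc {n : ℕ} {α : Type} (F : α → α → ℕ → ℕ) (w : Fin (n + 1) → α) (x : α) :
    (∑ i : Fin (n + 2), if h : i.val + 1 < n + 2 then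
        F ((Fin.snoc w x : Fin (n + 2) → α) i) ((Fin.snoc w x : Fin (n + 2) → α) ⟨i.val + 1, h⟩)
          (i.val + 1) else 0)
      = (∑ i : Fin (n + 1), if h : i.val + 1 < n + 1 then F (w i) (w ⟨i.val + 1, h⟩) (i.val + 1)
          else 0) + F (w (Fin.last n)) x (n + 1) := by
  rw [Fin.sum_univ_castSucc, Fin.sum_univ_castSucc, Fin.sum_univ_castSucc (n := n)]
  simp only [Fin.val_last, lt_irrefl, dite_false, add_zero, Fin.val_castSucc]
  congr 1
  · refine sum_congr rfl fun i _ => ?_
    have h1 : i.val + 1 < n + 2 := by omega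
    have h2 : i.val + 1 < n + 1 := by omega
    rw [dif_pos h1, dif_pos h2, Fin.snoc_castSucc]
    have : (⟨i.val + 1, h1⟩ : Fin (n + 2)) = Fin.castSucc ⟨i.val + 1, h2⟩ := rfl
    rw [this, Fin.snoc_castSucc]
  · have h1 : n + 1 < n + 2 := by omega
    rw [dif_pos h1, Fin.snoc_castSucc]
    have : (⟨n + 1, h1⟩ : Fin (n + 2)) = Fin.last (n + 1) := rfl
    rw [this, Fin.snoc_last]

theorem peak_snoc {n : ℕ} (w : Fin (n + 1) → Fin 2) (x : Fin 2) :
    peak (Fin.snoc w x : Fin (n + 2) → Fin 2)
      = peak w + if w (Fin.last n) < x then n + 1 else 0 :=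
  stat_snoc (fun a b k => if a < b then k else 0) w x

theorem maj_snoc {n : ℕ} (w : Fin (n + 1) → Fin 2) (x : Fin 2) :
    maj (Fin.snoc w x : Fin (n + 2) → Fin 2)
      = maj w + if x < w (Fin.last n) then n + 1 else 0 :=
  stat_snoc (fun a b k => if b < a then k else 0) w x

theorem sum_snoc {M : Type} [AddCommMonoid M] {n : ℕ} (F : (Fin (n + 1) → Fin 2) → M) :
    ∑ w, F w = ∑ w : Fin n → Fin 2, (F (Fin.snoc w 0) + F (Fin.snoc w 1)) := by
  rw [← (Fin.snocEquiv (fun _ : Fin (n + 1) => Fin 2)).sum_comp, Fintype.sum_prod_type,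
    Fin.sum_univ_two, ← sum_add_distrib]
  rfl

theorem peak_add (n : ℕ) : ∀ w : Fin (n + 1) → Fin 2,
    peak w + cnt w 1 (n + 1) = maj w + (n + 1) * (w (Fin.last n)).val := by
  induction n with
  | zero =>
    intro w
    have : w 0 = 0 ∨ w 0 = 1 := by omega
    rcases this with h | h <;> simp [peak, maj, cnt, h, -sum_boole]
  | succ n ih =>
    intro w
    rw [← Fin.snoc_init_self w]
    generalize Fin.init w = v
    generalize w (Fin.last (n + 1)) = x
    have h := ih v
    rw [peak_snoc, maj_snoc, cnt_snoc, Fin.snoc_last, cnt_of_ge v 1 (k := n + 1 + 1) (by omega)]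
    have h1 : v (Fin.last n) = 0 ∨ v (Fin.last n) = 1 := by omega
    have h2 : x = 0 ∨ x = 1 := by omega
    rcases h1 with h1 | h1 <;> rcases h2 with h2 | h2 <;> rw [h1] at h <;> simp [h1, h2] at h ⊢ <;>
      omega

variable {K : Type} [Field K]

open Classical in
/-- Peak generating function of ballot words of length `n` with `b` ones. -/
noncomputable def T (q : K) (n b : ℕ) : K :=
  ∑ w : Fin n → Fin 2, if Ballot w ∧ cnt w 1 n = b then q ^ peak w else 0

open Classical in
/-- The same, restricted to words ending in the letter `c`. -/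
noncomputable def TL (q : K) (n b : ℕ) (c : Fin 2) : K :=
  ∑ w : Fin (n + 1) → Fin 2,
    if Ballot w ∧ cnt w 1 (n + 1) = b ∧ w (Fin.last n) = c then q ^ peak w else 0

theorem T_split (q : K) (n b : ℕ) : T q (n + 1) b = TL q n b 0 + TL q n b 1 := by
  unfold T TL
  rw [← sum_add_distrib]
  refine sum_congr rfl fun w _ => ?_
  have h1 : w (Fin.last n) = 0 ∨ w (Fin.last n) = 1 := by omega
  by_cases hB : Ballot w <;> by_cases h2 : cnt w 1 (n + 1) = b <;>
    rcases h1 with h1 | h1 <;> simp [h1, hB, h2]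

theorem peak_snoc_zero {n : ℕ} (w : Fin n → Fin 2) :
    peak (Fin.snoc w 0 : Fin (n + 1) → Fin 2) = peak w := by
  cases n with
  | zero => simp [peak]
  | succ n => rw [peak_snoc]; simp

theorem TL_zero (q : K) (n b : ℕ) : TL q n b 0 = T q n b := by
  unfold T TL
  rw [sum_snoc]
  refine sum_congr rfl fun w _ => ?_
  by_cases hB : Ballot w <;> by_cases h2 : cnt w 1 n = b <;>
  simp [ballot_snoc, cnt_snoc, peak_snoc_zero, cnt_of_ge w 1 (Nat.le_succ n), hB, h2]

theorem TL_one_zero (q : K) (n : ℕ) : TL q n 0 1 = 0 := by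
  unfold TL
  rw [sum_snoc]
  refine sum_eq_zero fun w _ => ?_
  simp [cnt_snoc]

theorem TL_one (q : K) (n b : ℕ) : TL q (n + 1) (b + 1) 1 =
    if 2 * (b + 1) ≤ n + 2 then q ^ (n + 1) * TL q n b 0 + TL q n b 1 else 0 := by
  unfold TL
  rw [sum_snoc]
  split_ifs with hb
  · rw [mul_sum, ← sum_add_distrib]
    refine sum_congr rfl fun w _ => ?_
    have h1 : w (Fin.last n) = 0 ∨ w (Fin.last n) = 1 := by omega
    by_cases h2 : cnt w 1 (n + 1) = b
    · have hb' : (b + 1) * 2 ≤ n + 1 + 1 := by omega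
      by_cases hB : Ballot w <;> rcases h1 with h1 | h1 <;>
      simp [ballot_snoc, cnt_snoc, peak_snoc, cnt_of_ge w 1 (Nat.le_succ (n + 1)), h1, h2, hb',
        pow_add, mul_comm, hB]
    · simp [ballot_snoc, cnt_snoc, cnt_of_ge w 1 (Nat.le_succ (n + 1)), h2]
  · refine sum_eq_zero fun w _ => ?_
    by_cases h2 : cnt w 1 (n + 1) = b
    · simp [ballot_snoc, cnt_snoc, cnt_of_ge w 1 (Nat.le_succ (n + 1)), h2, hb]
    · simp [ballot_snoc, cnt_snoc, cnt_of_ge w 1 (Nat.le_succ (n + 1)), h2]

theorem T_zero (q : K) (n : ℕ) : T q n 0 = 1 := by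
  induction n with
  | zero => simp [T, Ballot, cnt, peak]
  | succ n ih => rw [T_split, TL_zero, TL_one_zero, ih, add_zero]

theorem T_big (q : K) (n b : ℕ) (h : n < 2 * b) : T q n b = 0 := by
  unfold T
  refine sum_eq_zero fun w _ => ?_
  rw [if_neg]
  rintro ⟨h1, h2⟩
  have := h1 n
  have := cnt_add w
  omega

theorem T_rec (q : K) (n b : ℕ) (h : 2 * (b + 1) ≤ n + 2) :
    T q (n + 2) (b + 1) = T q (n + 1) (b + 1) + T q (n + 1) b + (q ^ (n + 1) - 1) * T q n b := by
  rw [T_split q (n + 1), TL_zero, TL_one, if_pos h, T_split q n b, TL_zero]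
  ring

theorem T_eq (q : K) : ∀ n a b : ℕ, a + b = n → b ≤ a + 1 → T q n b = P q a b := by
  intro n
  induction n using Nat.strong_induction_on with
  | _ n ih =>
    intro a b hab hle
    cases b with
    | zero => rw [T_zero]; rfl
    | succ b =>
      by_cases hba : b = a
      · subst hba
        rw [P_zero, T_big _ _ _ (by omega)]
      · obtain ⟨a, rfl⟩ : ∃ a', a = a' + 1 := ⟨a - 1, by omega⟩
        have hn : n = (a + b) + 2 := by omega
        subst hn
        rw [T_rec q _ _ (by omega), P_three,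
          ih (a + b + 1) (by omega) a (b + 1) (by omega) (by omega),
          ih (a + b + 1) (by omega) (a + 1) b (by omega) (by omega),
          ih (a + b) (by omega) a b rfl (by omega)]

end Pool.Agent.Lib.MP_5b4ede_co
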